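import Pool.Agent.Lib.MP_275d83_lc.Det.Lower

/-! Asymptotic form of the two bounds. -/

namespace Pool.Agent.Lib.MP_275d83_lc.Det

open Filter

theorem bounds : ∀ᶠ n : ℕ in atTop, Real.exp (1 / 50 * Real.log n ^ 2) ≤ index DM.lang n ∧
    index DM.lang n ≤ Real.exp (315 * Real.log n ^ 2) := by
  filter_upwards [eventually_ge_atTop (2 ^ 41)] with n hn
  have hn0 : n ≠ 0 := by omega
  obtain ⟨m, hm⟩ : ∃ m, m = Nat.log 2 n := ⟨_, rfl⟩
  have h1 : 2 ^ m ≤ n := hm ▸ Nat.pow_log_le_self 2 hn0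
  have h2 : n < 2 ^ (m + 1) := hm ▸ Nat.lt_pow_succ_log_self one_lt_two n
  have h3 : 41 ≤ m := hm ▸ Nat.le_log_of_pow_le one_lt_two hn
  have l1 := Real.log_two_gt_d9
  have l2 := Real.log_two_lt_d9
  have hpos : (0 : ℝ) < n := by exact_mod_cast Nat.pos_of_ne_zero hn0
  have h4 : (m : ℝ) * Real.log 2 ≤ Real.log n := by
    rw [← Real.log_pow]
    exact Real.log_le_log (by positivity) (by exact_mod_cast h1)
  have h5 : Real.log n ≤ ((m + 1 : ℕ) : ℝ) * Real.log 2 := by
    rw [← Real.log_pow]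
    exact Real.log_le_log hpos (by exact_mod_cast h2.le)
  have h6 : (41 : ℝ) ≤ m := by exact_mod_cast h3
  have hexp : ∀ a : ℕ, ((2 ^ a : ℕ) : ℝ) = Real.exp (a * Real.log 2) := fun a => by
    rw [Real.exp_nat_mul, Real.exp_log two_pos]; push_cast; rfl
  constructor
  · obtain ⟨k, hk⟩ : ∃ k, k = (m - 5) / 4 := ⟨_, rfl⟩
    have h7 := index_lower k (n := n) ((Nat.pow_le_pow_right two_pos (by omega)).trans h1)
    refine le_trans ?_ (Nat.cast_le.2 h7)
    rw [hexp]
    refine Real.exp_le_exp.2 ?_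
    have h8 : ((m + 1 : ℕ) : ℝ) ≤ 5 * k := by exact_mod_cast (show m + 1 ≤ 5 * k by omega)
    have h9 : (0 : ℝ) ≤ k := Nat.cast_nonneg k
    have h10 : Real.log n ≤ 5 * k := by nlinarith [Nat.cast_nonneg (α := ℝ) (m + 1)]
    have h11 : Real.log n ^ 2 ≤ (5 * k) ^ 2 := by gcongr
    push_cast
    nlinarith [mul_nonneg h9 h9]
  · have h7 := index_upper n (c := 2 * m + 11) (by
      have h8 : n ^ 2 ≤ (2 ^ (m + 1)) ^ 2 := Nat.pow_le_pow_left h2.le 2
      have h9 : 1 ≤ (2 ^ m) ^ 2 := Nat.one_le_pow _ _ (by positivity)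
      rw [pow_succ 2 m, mul_pow] at h8
      rw [pow_add, mul_comm 2 m, pow_mul]
      omega)
    refine le_trans (Nat.cast_le.2 h7) ?_
    rw [hexp]
    refine Real.exp_le_exp.2 ?_
    have h8 : (m : ℝ) ≤ 2 * Real.log n := by nlinarith
    have h9 : 1 ≤ Real.log n := by nlinarith
    push_cast
    calc _ ≤ (15 * Real.log n) * (21 * Real.log n) * 1 := by gcongr <;> linarith
      _ = _ := by ring

theorem intermediate_of {f : ℕ → ℕ} {a b : ℝ} (ha : 0 < a) (hb : 0 < b)
    (h : ∀ᶠ n : ℕ in atTop, Real.exp (a * Real.log n ^ 2) ≤ f n ∧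
      f n ≤ Real.exp (b * Real.log n ^ 2)) : Intermediate f := by
  have hL : Tendsto (fun n : ℕ => Real.log n) atTop atTop :=
    Real.tendsto_log_atTop.comp tendsto_natCast_atTop_atTop
  constructor
  · intro k hO
    obtain ⟨C, hC0, hC⟩ := hO.exists_pos
    obtain ⟨n, h1, h2, h3, h4, h5⟩ := (h.and (hC.bound.and ((hL.eventually_ge_atTop
      ((k + 1) / a)).and ((hL.eventually_gt_atTop (max (Real.log C) 0)).and
        (eventually_gt_atTop 0))))).exists
    have hn : (0 : ℝ) < n := by exact_mod_cast h5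
    rw [Real.norm_of_nonneg (Nat.cast_nonneg _), Real.norm_of_nonneg (by positivity)] at h2
    have h6 : C * (n : ℝ) ^ k = Real.exp (Real.log C + k * Real.log n) := by
      rw [Real.exp_add, Real.exp_log hC0, Real.exp_nat_mul, Real.exp_log hn]
    have h7 := Real.exp_le_exp.1 (h1.1.trans (h2.trans_eq h6))
    rw [div_le_iff₀ ha] at h3
    have h8 := (le_max_left _ _).trans_lt h4
    have h9 := (le_max_right _ _).trans_lt h4
    nlinarith
  · intro c hc
    have hl := Real.log_pos hc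
    have h1 := tendsto_natCast_atTop_atTop.eventually
      ((Real.isLittleO_pow_log_id_atTop (n := 2)).bound (c := Real.log c / (2 * b)) (by positivity))
    filter_upwards [h, h1, eventually_gt_atTop 0] with n h2 h3 h4
    have hn : (0 : ℝ) < n := by exact_mod_cast h4
    rw [Real.norm_of_nonneg (by positivity), id, Real.norm_of_nonneg hn.le] at h3
    refine h2.2.trans_lt ?_
    rw [← Real.exp_log (zero_lt_one.trans hc), ← Real.exp_nat_mul]
    refine Real.exp_lt_exp.2 ?_
    calc _ ≤ b * (Real.log c / (2 * b) * n) := by gcongr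
      _ = n * Real.log c / 2 := by field_simp
      _ < _ := half_lt_self (by positivity)

end Pool.Agent.Lib.MP_275d83_lc.Det
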