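import Pool.Agent.Lib.MP_275d83_lc.Det.Gen

/-! The automaton: two pairs of brackets, and a shifted comparison after the first mismatch. -/

namespace Pool.Agent.Lib.MP_275d83_lc.Det

open List

inductive Al | o | c | x | y | e
  deriving DecidableEq, Fintype

inductive St | on | p0 | p1 | pS | acc
  deriving DecidableEq, Fintype

inductive Sy | X | O | N | M | B
  deriving DecidableEq, Fintype

/-- the transition table -/
def dl : St → Al → Sy → Option (St × List Sy)
  | .acc, _, Z => some (.acc, [Z])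
  | .on, .o, Z => some (.on, [.O, Z])
  | .on, .x, Z => some (.on, [.X, Z])
  | .on, .y, .X => some (.on, [])
  | .on, .y, .O => some (.pS, [.O, .O])
  | .on, .c, .O => some (.on, [])
  | .on, .c, .X => some (.p0, [.X])
  | .on, .e, .B => some (.acc, [.B])
  | .on, _, _ => none
  | q, .o, Z => some (q, [.N, Z])
  | q, .x, .N => some (q, [.N])
  | q, .x, Z => some (q, [.M, Z])
  | q, .y, .N => some (q, [.N])
  | q, .y, .M => some (q, [])
  | .p0, .y, .X => some (.p1, [.X])
  | _, .y, .X => some (.p0, [])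
  | _, .y, .O => some (.pS, [.O])
  | q, .c, .N => some (q, [])
  | _, .c, .X => some (.acc, [.X])
  | .pS, .c, .O => some (.p0, [])
  | _, .c, .O => some (.acc, [.O])
  | _, _, _ => none

/-- the automaton -/
abbrev DM : DPDA Al := ⟨St, Sy, inferInstance, inferInstance, dl, .on, .B, {.acc}⟩

/-- its runs -/
abbrev rn (q : St) (γ : List Sy) (w : List Al) : Option (St × List Sy) := DM.run (q, γ) w

theorem rc {q q' : St} {a : Al} {Z : Sy} {β : List Sy} (h : dl q a Z = some (q', β))
    (γ : List Sy) (w : List Al) : rn q (Z :: γ) (a :: w) = rn q' (β ++ γ) w := by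
  simp [DPDA.run, DPDA.step, h]

theorem dl_len : ∀ q a Z q' β, dl q a Z = some (q', β) → β.length ≤ 2 := by
  intro q a Z q' β h
  cases q <;> cases a <;> cases Z <;> cases h <;> simp

theorem dl_B {q a q' β} (h : dl q a .B = some (q', β)) : Sy.B ∈ β := by
  cases q <;> cases a <;> cases h <;> simp

theorem dl_on {q a Z β} (h : dl q a Z = some (.on, β)) : q = .on := by
  cases q <;> cases a <;> cases Z <;> cases h <;> rfl

theorem dl_off {q a Z q' β} (hq : q ≠ .on) (h : dl q a Z = some (q', β)) :
    β = [.N, Z] ∨ β = [Z] ∨ β = [] ∨ (β = [.M, Z] ∧ Z ≠ .N) := by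
  cases q <;> cases a <;> cases Z <;> cases h <;> simp at hq ⊢

theorem acc_run (Z : Sy) (γ : List Sy) (w : List Al) : rn .acc (Z :: γ) w = some (.acc, Z :: γ) := by
  induction w with
  | nil => rfl
  | cons a w ih => exact (rc (q := .acc) (β := [Z]) rfl γ w).trans ih

theorem run_B {w : List Al} : ∀ {q γ q' γ'}, rn q γ w = some (q', γ') → Sy.B ∈ γ → Sy.B ∈ γ' := by
  induction w with
  | nil =>
    intro q γ q' γ' h hB
    obtain ⟨rfl, rfl⟩ := Prod.mk.inj (Option.some.inj h)
    exact hB
  | cons a w ih =>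
    intro q γ q' γ' h hB
    obtain ⟨Z, γ₁, q₁, β, rfl, h1, h2⟩ := DM.run_cons_iff.1 h
    refine ih h2 ?_
    rcases List.mem_cons.1 hB with rfl | hB
    · exact mem_append_left _ (dl_B h1)
    · exact mem_append_right _ hB

/-- symbol, opening letter and closing letter of a bracket -/
def sy : Bool → Sy
  | true => .X
  | false => .O

def op : Bool → Al
  | true => .x
  | false => .o

def cl : Bool → Al
  | true => .y
  | false => .c

/-- balanced words -/
inductive Bal : List Al → Prop
  | nil : Bal []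
  | cons (b : Bool) {v w : List Al} : Bal v → Bal w → Bal (op b :: (v ++ cl b :: w))

theorem Bal.append {u v : List Al} (hu : Bal u) (hv : Bal v) : Bal (u ++ v) := by
  induction hu with
  | nil => exact hv
  | cons b h1 _ _ ih => simpa using Bal.cons b h1 ih

theorem Bal.skip {v : List Al} (h : Bal v) : ∀ q Z γ, rn q (Z :: γ) v = some (q, Z :: γ) := by
  induction h with
  | nil => intro q Z γ; rfl
  | @cons b v w _ _ ih1 ih2 =>
    intro q Z γ
    have key : (∃ Y, dl q (op b) Z = some (q, [Y, Z]) ∧ dl q (cl b) Y = some (q, [])) ∨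
        (dl q (op b) Z = some (q, [Z]) ∧ dl q (cl b) Z = some (q, [Z])) := by
      cases q <;> cases b <;> cases Z <;> first | exact Or.inr ⟨rfl, rfl⟩ | exact Or.inl ⟨_, rfl, rfl⟩
    rcases key with ⟨Y, h1, h2⟩ | ⟨h1, h2⟩
    · exact (rc h1 _ _).trans ((DM.run_append_of (ih1 q Y _) _).trans ((rc h2 _ _).trans (ih2 _ _ _)))
    · exact (rc h1 _ _).trans ((DM.run_append_of (ih1 q Z _) _).trans ((rc h2 _ _).trans (ih2 _ _ _)))

theorem Bal.skip' {v : List Al} (h : Bal v) (q : St) {γ : List Sy} (hB : Sy.B ∈ γ) :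
    rn q γ v = some (q, γ) := by
  cases γ with
  | nil => simp at hB
  | cons Z γ => exact h.skip q Z γ

/-- words that close the brackets of `σ` -/
def Dn : List Bool → List Al → Prop
  | [], w => Bal w
  | b :: σ, w => ∃ v w', Bal v ∧ Dn σ w' ∧ w = v ++ cl b :: w'

theorem Dn.run {σ : List Bool} : ∀ {w q γ}, Dn σ w → Sy.B ∈ γ → rn q γ w = rn q γ (σ.map cl) := by
  induction σ with
  | nil => intro w q γ h hB; exact Bal.skip' h q hB
  | cons b σ ih =>
    rintro _ q γ ⟨v, w', h1, h2, rfl⟩ hB
    refine (DM.run_append_of (h1.skip' q hB) _).trans ?_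
    simp only [map_cons, DPDA.run]
    cases h : DM.step (q, γ) (cl b) with
    | none => rfl
    | some d =>
      have h3 : rn q γ [cl b] = some (d.1, d.2) := by simp [DPDA.run, h]
      exact ih h2 (run_B h3 hB)

theorem Dn.snoc {σ : List Bool} {b : Bool} {v : List Al} (hv : Bal v) :
    ∀ {w}, Dn σ w → Dn (σ ++ [b]) (w ++ cl b :: v) := by
  induction σ with
  | nil => intro w h; exact ⟨w, v, h, hv, rfl⟩
  | cons b' σ ih =>
    rintro _ ⟨u, w', h1, h2, rfl⟩
    exact ⟨u, _, h1, ih h2, by simp⟩

theorem on_op (b : Bool) (Z : Sy) : dl .on (op b) Z = some (.on, [sy b, Z]) := by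
  cases b <;> rfl

theorem on_cl (b : Bool) : dl .on (cl b) (sy b) = some (.on, []) := by
  cases b <;> rfl

theorem Bal.split {v : List Al} (h : Bal v) : ∀ u z, v = u ++ z → ∃ σ : List Bool,
    (∀ Z β, rn .on (Z :: β) u = some (.on, σ.map sy ++ Z :: β)) ∧ Dn σ z := by
  induction h with
  | nil =>
    intro u z e
    obtain ⟨rfl, rfl⟩ := List.append_eq_nil_iff.1 e.symm
    exact ⟨[], fun _ _ => rfl, Bal.nil⟩
  | @cons b v w hv hw ih1 ih2 =>
    intro u z e
    cases u with
    | nil =>
      obtain rfl : op b :: (v ++ cl b :: w) = z := e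
      exact ⟨[], fun _ _ => rfl, Bal.cons b hv hw⟩
    | cons a u =>
      obtain ⟨rfl, e₁⟩ := List.cons.inj e
      have one : ∀ u z', v = u ++ z' → ∃ σ : List Bool,
          (∀ Z β, rn .on (Z :: β) (op b :: u) = some (.on, σ.map sy ++ Z :: β)) ∧
            Dn σ (z' ++ cl b :: w) := by
        intro u z' e
        obtain ⟨σ, h1, h2⟩ := ih1 u z' e
        exact ⟨σ ++ [b], fun Z β => (rc (on_op b Z) _ _).trans (by simpa using h1 (sy b) (Z :: β)),
          h2.snoc hw⟩
      rcases List.append_eq_append_iff.1 e₁ with ⟨a', rfl, e'⟩ | ⟨c', rfl, rfl⟩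
      · cases a' with
        | nil =>
          obtain rfl : cl b :: w = z := e'
          simpa using one v [] (by simp)
        | cons a'' a' =>
          obtain ⟨rfl, e₂⟩ := List.cons.inj e'
          obtain ⟨σ, h1, h2⟩ := ih2 a' z e₂
          exact ⟨σ, fun Z β => (rc (on_op b Z) _ _).trans
            ((DM.run_append_of (hv.skip _ _ _) _).trans ((rc (on_cl b) _ _).trans (h1 Z β))), h2⟩
      · exact one u c' rfl

theorem on_pop (σ : List Bool) (β : List Sy) (w : List Al) :
    rn .on (σ.map sy ++ β) (σ.map cl ++ w) = rn .on β w := by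
  induction σ with
  | nil => rfl
  | cons b σ ih => exact (rc (on_cl b) _ _).trans ih

/-- the pushdown with the labels `r` -/
def stk : List ℕ → ℕ → List Bool
  | [], b => replicate b true
  | l :: r, b => replicate l true ++ false :: stk r b

theorem exists_stk (σ : List Bool) : ∃ r b, σ = stk r b := by
  induction σ with
  | nil => exact ⟨[], 0, rfl⟩
  | cons a σ ih =>
    obtain ⟨r, b, rfl⟩ := ih
    cases a with
    | false => exact ⟨0 :: r, b, rfl⟩
    | true =>
      cases r with
      | nil => exact ⟨[], b + 1, rfl⟩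
      | cons l r => exact ⟨(l + 1) :: r, b, rfl⟩

theorem stk_length (r : List ℕ) (b : ℕ) : (stk r b).length = r.sum + r.length + b := by
  induction r with
  | nil => simp [stk]
  | cons l r ih => simp [stk, ih]; omega

theorem stk_sy (l : ℕ) (r : List ℕ) (b : ℕ) (β : List Sy) :
    (stk (l :: r) b).map sy ++ β = replicate l .X ++ .O :: ((stk r b).map sy ++ β) := by
  simp [stk, sy]

theorem stk_cl (l : ℕ) (r : List ℕ) (b : ℕ) :
    (stk (l :: r) b).map cl = replicate l .y ++ .c :: (stk r b).map cl := by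
  simp [stk, cl]

theorem pS_run (m : ℕ) (γ : List Sy) (w : List Al) :
    rn .pS (.O :: γ) (replicate m .y ++ .c :: w) = rn .p0 γ w := by
  induction m with
  | zero => exact rc (q := .pS) (β := []) rfl _ _
  | succ m ih => exact (rc (q := .pS) (β := [.O]) rfl _ _).trans ih

theorem mism (γ : List Sy) (w : List Al) : ∀ m l : ℕ, l ≠ m →
    rn .on (replicate l .X ++ .O :: γ) (replicate m .y ++ .c :: w) =
      rn .p0 (replicate (l - m) .X ++ .O :: γ) w
  | 0, 0, h => absurd rfl h
  | 0, l + 1, _ => rc (q := .on) (β := [.X]) rfl _ _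
  | m + 1, 0, _ => (rc (q := .on) (β := [.O, .O]) rfl _ _).trans (by
      rw [Nat.zero_sub]; exact pS_run m _ w)
  | m + 1, l + 1, h => (rc (q := .on) (β := []) rfl _ _).trans (by
      rw [Nat.add_sub_add_right]; exact mism γ w m l (by omega))

/-- acceptance from a configuration -/
def Acc (q : St) (γ : List Sy) (w : List Al) : Prop := ∃ γ', rn q γ w = some (.acc, γ')

theorem cmp_le (γ : List Sy) (w : List Al) : ∀ l m : ℕ, m ≤ 2 * l →
    Acc .p0 (replicate l .X ++ .O :: γ) (replicate m .y ++ .c :: w)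
  | 0, 0, _ => ⟨_, (rc (q := .p0) (β := [.O]) rfl _ _).trans (acc_run _ _ _)⟩
  | 0, m + 1, h => by omega
  | l + 1, 0, _ => ⟨_, (rc (q := .p0) (β := [.X]) rfl _ _).trans (acc_run _ _ _)⟩
  | l + 1, 1, _ => ⟨_, (rc (q := .p0) (β := [.X]) rfl _ _).trans
      ((rc (q := .p1) (β := [.X]) rfl _ _).trans (acc_run _ _ _))⟩
  | l + 1, m + 2, h => by
      obtain ⟨γ', h'⟩ := cmp_le γ w l m (by omega)
      exact ⟨γ', (rc (q := .p0) (β := [.X]) rfl _ _).trans
        ((rc (q := .p1) (β := []) rfl _ _).trans h')⟩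

theorem cmp_gt (γ : List Sy) (w : List Al) : ∀ l m : ℕ, 2 * l < m →
    rn .p0 (replicate l .X ++ .O :: γ) (replicate m .y ++ .c :: w) = rn .p0 γ w
  | 0, 0, h => by omega
  | 0, m + 1, _ => (rc (q := .p0) (β := [.O]) rfl _ _).trans (pS_run m γ w)
  | l + 1, 0, h => by omega
  | l + 1, 1, h => by omega
  | l + 1, m + 2, h => (rc (q := .p0) (β := [.X]) rfl _ _).trans
      ((rc (q := .p1) (β := []) rfl _ _).trans (cmp_gt γ w l m (by omega)))

theorem off_acc (b b' : ℕ) (β : List Sy) : ∀ (k : ℕ) (r s : List ℕ), k < r.length → k < s.length →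
    s.getD k 0 ≤ 2 * r.getD k 0 → Acc .p0 ((stk r b).map sy ++ β) ((stk s b').map cl) := by
  intro k
  induction k with
  | zero =>
    intro r s hr hs h
    obtain ⟨l, r, rfl⟩ := List.exists_cons_of_length_pos hr
    obtain ⟨m, s, rfl⟩ := List.exists_cons_of_length_pos hs
    rw [stk_sy, stk_cl]
    exact cmp_le _ _ l m (by simpa using h)
  | succ k ih =>
    intro r s hr hs h
    obtain ⟨l, r, rfl⟩ := List.exists_cons_of_length_pos (Nat.zero_lt_of_lt hr)
    obtain ⟨m, s, rfl⟩ := List.exists_cons_of_length_pos (Nat.zero_lt_of_lt hs)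
    rw [stk_sy, stk_cl]
    rcases le_or_gt m (2 * l) with h' | h'
    · exact cmp_le _ _ l m h'
    · obtain ⟨γ', h1⟩ := ih r s (by simpa using hr) (by simpa using hs) (by simpa using h)
      exact ⟨γ', (cmp_gt _ _ l m h').trans h1⟩

theorem glue (b : ℕ) (β : List Sy) (τ : List ℕ) {k : ℕ} (hk : k + 1 < τ.length)
    (h : τ.getD (k + 1) 0 ≤ 2 * τ.getD k 0) : ∀ r s : List ℕ, r.length = s.length → r ≠ s →
      Acc .on ((stk (r ++ τ) b).map sy ++ β) ((stk (s ++ τ) b).map cl) := by
  intro r
  induction r with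
  | nil => intro s h1 h2; exact absurd (List.eq_nil_of_length_eq_zero h1.symm).symm h2
  | cons l r ih =>
    intro s h1 h2
    cases s with
    | nil => simp at h1
    | cons m s =>
      have h3 : r.length = s.length := by simpa using h1
      rw [cons_append, cons_append, stk_sy, stk_cl]
      by_cases hl : l = m
      · subst hl
        obtain ⟨γ', h4⟩ := ih s h3 (fun e => h2 (by rw [e]))
        refine ⟨γ', Eq.trans ?_ h4⟩
        simpa [sy, cl] using on_pop (replicate l true ++ [false]) ((stk (r ++ τ) b).map sy ++ β)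
          ((stk (s ++ τ) b).map cl)
      · obtain ⟨γ', h4⟩ := off_acc b b β (r.length + k + 1) ((l - m) :: (r ++ τ)) (s ++ τ)
          (by simp; omega) (by simp; omega) (by
            rw [List.getD_cons_succ, List.getD_append_right _ _ _ _ (by omega),
              List.getD_append_right _ _ _ _ (by omega), show r.length + k + 1 - s.length = k + 1 by
                omega, show r.length + k - r.length = k by omega]
            exact h)
        rw [stk_sy] at h4
        exact ⟨γ', (mism _ _ m l hl).trans h4⟩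

theorem not_geom (τ : List ℕ) {H c : ℕ} (hc : H + 1 < 2 ^ c) (hl : τ.length = c + 1)
    (hH : ∀ l ∈ τ, l ≤ H) : ∃ k, k + 1 < τ.length ∧ τ.getD (k + 1) 0 ≤ 2 * τ.getD k 0 := by
  by_contra hcon
  push Not at hcon
  have : ∀ k, k < τ.length → 2 ^ k ≤ τ.getD k 0 + 1 := by
    intro k
    induction k with
    | zero => simp
    | succ k ih =>
      intro hk
      have h1 := ih (by omega)
      have h2 := hcon k hk
      rw [pow_succ]
      omega
  have h1 := this c (by omega)
  have h2 := hH (τ.getD c 0) (by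
    rw [List.getD_eq_getElem _ _ (by omega)]; exact List.getElem_mem _)
  omega

end Pool.Agent.Lib.MP_275d83_lc.Det
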