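import Pool.Agent.Lib.MP_275d83_lc.Defs

namespace Pool.Agent.Lib.MP_275d83_lc

/-- A real-time deterministic pushdown automaton: finitely many states and pushdown symbols; a
move reads one input letter, removes the top symbol and writes a word on the pushdown. -/
structure DPDA (X : Type) where
  Q : Type
  Γ : Type
  finQ : Finite Q
  finΓ : Finite Γ
  δ : Q → X → Γ → Option (Q × List Γ)
  q₀ : Q
  Z₀ : Γ
  F : Set Q

/-- One move from a configuration (state, pushdown with the top at the left). -/
def DPDA.step {X : Type} (M : DPDA X) : M.Q × List M.Γ → X → Option (M.Q × List M.Γ)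
  | (_, []), _ => none
  | (q, Z :: γ), a => (M.δ q a Z).map fun r => (r.1, r.2 ++ γ)

/-- The configuration reached after reading a word, if the automaton does not block. -/
def DPDA.run {X : Type} (M : DPDA X) : M.Q × List M.Γ → List X → Option (M.Q × List M.Γ)
  | c, [] => some c
  | c, a :: w => (M.step c a).bind fun d => M.run d w

/-- The language accepted by final state. -/
def DPDA.lang {X : Type} (M : DPDA X) : Language X :=
  {w | ∃ q ∈ M.F, ∃ γ : List M.Γ, M.run (M.q₀, [M.Z₀]) w = some (q, γ)}

end Pool.Agent.Lib.MP_275d83_lc
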