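import Pool.Agent.Lib.MP_275d83_lc.Basic
import Pool.Agent.Lib.MP_275d83_lc.Det.DefsD

/-! Real-time deterministic pushdown automata: context-freeness and the height of shortest runs. -/

namespace Pool.Agent.Lib.MP_275d83_lc

open Pool.Agent.Lib.MP_a569f2_lc

namespace DPDA

variable {X : Type} (M : DPDA X)

theorem run_append (u v : List X) : ∀ c, M.run c (u ++ v) = (M.run c u).bind fun d => M.run d v := by
  induction u with
  | nil => intro c; rfl
  | cons a u ih =>
    intro c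
    simp only [List.cons_append, run]
    cases M.step c a with
    | none => rfl
    | some d => exact ih d

theorem run_append_of {u : List X} {c d} (h : M.run c u = some d) (v : List X) :
    M.run c (u ++ v) = M.run d v := by
  rw [run_append, h]; rfl

theorem run_pre {u v : List X} {c d} (h : M.run c (u ++ v) = some d) :
    ∃ e, M.run c u = some e ∧ M.run e v = some d := by
  rw [run_append] at h
  exact Option.bind_eq_some_iff.1 h

theorem run_cons_iff {a : X} {w : List X} {q : M.Q} {γ : List M.Γ} {d} :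
    M.run (q, γ) (a :: w) = some d ↔ ∃ Z γ' q' β, γ = Z :: γ' ∧ M.δ q a Z = some (q', β) ∧
      M.run (q', β ++ γ') w = some d := by
  cases γ with
  | nil => simp [run, step]
  | cons Z γ' =>
    simp only [run, step, Option.bind_eq_some_iff, Option.map_eq_some_iff]
    constructor
    · rintro ⟨_, ⟨⟨q', β⟩, h1, rfl⟩, h2⟩
      exact ⟨Z, γ', q', β, rfl, h1, h2⟩
    · rintro ⟨_, _, q', β, h, h1, h2⟩
      obtain ⟨rfl, rfl⟩ := List.cons.inj h
      exact ⟨_, ⟨(q', β), h1, rfl⟩, h2⟩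

theorem run_frame (β : List M.Γ) {w : List X} : ∀ {q γ q' γ'}, M.run (q, γ) w = some (q', γ') →
    M.run (q, γ ++ β) w = some (q', γ' ++ β) := by
  induction w with
  | nil =>
    intro q γ q' γ' h
    obtain ⟨rfl, rfl⟩ := Prod.mk.inj (Option.some.inj h)
    rfl
  | cons a w ih =>
    intro q γ q' γ' h
    obtain ⟨Z, γ₁, q₁, β₁, rfl, h1, h2⟩ := M.run_cons_iff.1 h
    exact M.run_cons_iff.2 ⟨Z, γ₁ ++ β, q₁, β₁, rfl, h1, by simpa using ih h2⟩

theorem run_split (β : List M.Γ) {w : List X} : ∀ {q γ q' γ'},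
    M.run (q, γ ++ β) w = some (q', γ') →
      (∃ γ₁, M.run (q, γ) w = some (q', γ₁) ∧ γ' = γ₁ ++ β) ∨
        ∃ u v q₁, w = u ++ v ∧ M.run (q, γ) u = some (q₁, []) ∧
          M.run (q₁, β) v = some (q', γ') := by
  induction w with
  | nil =>
    intro q γ q' γ' h
    obtain ⟨rfl, rfl⟩ := Prod.mk.inj (Option.some.inj h)
    exact Or.inl ⟨γ, rfl, rfl⟩
  | cons a w ih =>
    intro q γ q' γ' h
    cases γ with
    | nil => exact Or.inr ⟨[], a :: w, q, rfl, rfl, h⟩
    | cons Z γ =>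
      obtain ⟨_, _, q₁, β₁, e, h1, h2⟩ := M.run_cons_iff.1 h
      obtain ⟨rfl, rfl⟩ := List.cons.inj e
      rw [List.append_eq, ← List.append_assoc] at h2
      rcases ih h2 with ⟨γ₁, h3, h4⟩ | ⟨u, v, q₂, rfl, h3, h4⟩
      · exact Or.inl ⟨γ₁, M.run_cons_iff.2 ⟨Z, γ, q₁, β₁, rfl, h1, h3⟩, h4⟩
      · exact Or.inr ⟨a :: u, v, q₂, rfl, M.run_cons_iff.2 ⟨Z, γ, q₁, β₁, rfl, h1, h3⟩, h4⟩

/-- Words that empty the pushdown in a given state, or that lead to a final state. -/
def LL (q : M.Q) (γ : List M.Γ) : Option M.Q → Set (List X)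
  | some q' => {w | M.run (q, γ) w = some (q', [])}
  | none => {w | ∃ f ∈ M.F, ∃ γ', M.run (q, γ) w = some (f, γ')}

theorem LL_nil {q r w} (h : w ∈ M.LL q [] r) : w = [] := by
  cases w with
  | nil => rfl
  | cons a w =>
    cases r with
    | none => obtain ⟨f, -, γ', h⟩ := h; simp [run, step] at h
    | some q' => simp [LL, run, step] at h

theorem LL_run {q γ r w} (h : w ∈ M.LL q γ r) : ∃ d, M.run (q, γ) w = some d := by
  cases r with
  | none => obtain ⟨f, -, γ', h⟩ := h; exact ⟨_, h⟩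
  | some q' => exact ⟨_, h⟩

theorem LL_append {q q₁ Z γ r u v} (hu : u ∈ M.LL q [Z] (some q₁)) (hv : v ∈ M.LL q₁ γ r) :
    u ++ v ∈ M.LL q (Z :: γ) r := by
  have h := M.run_append_of (M.run_frame γ hu) v
  cases r with
  | none => obtain ⟨f, hf, γ', hv⟩ := hv; exact ⟨f, hf, γ', h.trans hv⟩
  | some q' => exact h.trans hv

theorem LL_cons {q Z γ r w} (h : w ∈ M.LL q (Z :: γ) r) :
    (w ∈ M.LL q [Z] none ∧ ∀ w' ∈ M.LL q [Z] none, w' ∈ M.LL q (Z :: γ) r) ∨
      ∃ u v q₁, w = u ++ v ∧ u ∈ M.LL q [Z] (some q₁) ∧ v ∈ M.LL q₁ γ r := by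
  cases r with
  | none =>
    obtain ⟨f, hf, γ', h⟩ := h
    rcases M.run_split γ (γ := [Z]) h with ⟨γ₁, h1, -⟩ | ⟨u, v, q₁, rfl, h1, h2⟩
    · refine Or.inl ⟨⟨f, hf, γ₁, h1⟩, ?_⟩
      rintro w' ⟨f', hf', γ₂, h'⟩
      exact ⟨f', hf', _, M.run_frame γ h'⟩
    · exact Or.inr ⟨u, v, q₁, rfl, h1, f, hf, γ', h2⟩
  | some q' =>
    rcases M.run_split γ (γ := [Z]) h with ⟨γ₁, h1, h2⟩ | ⟨u, v, q₁, rfl, h1, h2⟩
    · obtain ⟨rfl, rfl⟩ := List.append_eq_nil_iff.1 h2.symm
      exact Or.inr ⟨w, [], q', by simp, h1, rfl⟩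
    · exact Or.inr ⟨u, v, q₁, rfl, h1, h2⟩

theorem LL_letter {q Z r a w} (h : a :: w ∈ M.LL q [Z] r) : ∃ q₁ β, M.δ q a Z = some (q₁, β) ∧
    ∀ w', w' ∈ M.LL q₁ β r ↔ a :: w' ∈ M.LL q [Z] r := by
  obtain ⟨d, hd⟩ := M.LL_run h
  obtain ⟨_, _, q₁, β, e, h1, -⟩ := M.run_cons_iff.1 hd
  obtain ⟨rfl, rfl⟩ := List.cons.inj e
  refine ⟨q₁, β, h1, fun w' => ?_⟩
  have : M.run (q, [Z]) (a :: w') = M.run (q₁, β) w' := by simp [run, step, h1]
  cases r <;> simp [LL, this]

theorem to_prd {γ : List M.Γ} : ∀ {q r w}, w ∈ M.LL q γ r →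
    ∃ ν : List (M.Q × M.Γ × Option M.Q), ν.length ≤ γ.length ∧
      w ∈ Prd (fun B : M.Q × M.Γ × Option M.Q => M.LL B.1 [B.2.1] B.2.2) ν ∧
      ∀ w' ∈ Prd (fun B : M.Q × M.Γ × Option M.Q => M.LL B.1 [B.2.1] B.2.2) ν,
        w' ∈ M.LL q γ r := by
  induction γ with
  | nil =>
    intro q r w h
    obtain rfl := M.LL_nil h
    exact ⟨[], le_rfl, rfl, fun w' hw' => by rw [mem_prd_nil.1 hw']; exact h⟩
  | cons Z γ ih =>
    intro q r w h
    rcases M.LL_cons h with ⟨h1, h2⟩ | ⟨u, v, q₁, rfl, h1, h2⟩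
    · exact ⟨[(q, Z, none)], by simp, mem_prd_single.2 h1, fun w' hw' => h2 _ (mem_prd_single.1 hw')⟩
    · obtain ⟨ν, h3, h4, h5⟩ := ih h2
      refine ⟨(q, Z, some q₁) :: ν, by simpa using h3, ⟨u, v, h1, h4, rfl⟩, ?_⟩
      rintro _ ⟨u', v', h6, h7, rfl⟩
      exact M.LL_append h6 (h5 _ h7)

theorem isContextFree [Finite X] {b : ℕ}
    (hb : ∀ q a Z q' β, M.δ q a Z = some (q', β) → β.length ≤ b) : M.lang.IsContextFree := by
  have := M.finQ
  have := M.finΓ
  refine IsGS.isContextFree ⟨⟨M.Q × M.Γ × Option M.Q, inferInstance,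
    fun B => M.LL B.1 [B.2.1] B.2.2, b, ?_⟩, (M.q₀, M.Z₀, none), rfl⟩
  rintro ⟨q, Z, r⟩ a w h
  obtain ⟨q₁, β, h1, h2⟩ := M.LL_letter h
  obtain ⟨ν, h3, h4, h5⟩ := M.to_prd ((h2 w).2 h)
  exact ⟨ν, h3.trans (hb _ _ _ _ _ h1), h4, fun w' hw' => (h2 w').1 (h5 _ hw')⟩

variable {S : Type} (E : S → X → S → Prop)

/-- `w` is a shortest word of `K` on a path from `p` to `p'`. -/
def Min (K : Set (List X)) (p p' : S) (w : List X) : Prop :=
  w ∈ K ∧ Path E p w p' ∧ ∀ w' ∈ K, Path E p w' p' → w.length ≤ w'.length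

/-- The number of symbols whose shortest word is shorter than `m`. -/
noncomputable def rk (m : ℕ) : ℕ :=
  Set.ncard {x : S × S × M.Q × M.Γ × Option M.Q |
    ∃ w, Min E (M.LL x.2.2.1 [x.2.2.2.1] x.2.2.2.2) x.1 x.2.1 w ∧ w.length < m}

variable [Finite S]

theorem rk_mono : Monotone (M.rk E) := by
  have := M.finQ
  have := M.finΓ
  intro m m' h
  refine Set.ncard_le_ncard ?_ (Set.toFinite _)
  rintro x ⟨w, h1, h2⟩
  exact ⟨w, h1, h2.trans_le h⟩

theorem rk_lt {p p' q Z r w} (h : Min E (M.LL q [Z] r) p p' w) :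
    M.rk E w.length < M.rk E (w.length + 1) := by
  have := M.finQ
  have := M.finΓ
  refine Set.ncard_lt_ncard ⟨?_, fun hh => ?_⟩ (Set.toFinite _)
  · rintro x ⟨w', h1, h2⟩
    exact ⟨w', h1, by omega⟩
  · obtain ⟨w', h1, h2⟩ := hh (a := (p, p', q, Z, r)) ⟨w, h, by omega⟩
    have := h.2.2 w' h1.1 h1.2.1
    omega

theorem rk_le (m : ℕ) : M.rk E m ≤ Nat.card (S × S × M.Q × M.Γ × Option M.Q) := by
  have := M.finQ
  have := M.finΓ
  exact Set.ncard_le_card _

theorem height_aux {b : ℕ} (hb : ∀ q a Z q' β, M.δ q a Z = some (q', β) → β.length ≤ b) :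
    ∀ (k : ℕ) (γ : List M.Γ) (q r p p' w), w.length < k → Min E (M.LL q γ r) p p' w →
      ∀ u v d, w = u ++ v → M.run (q, γ) u = some d → d.2.length ≤ γ.length + b * M.rk E k := by
  intro k
  induction k using Nat.strong_induction_on with
  | _ k ihk =>
  have one : ∀ Z q r p p' w, w.length < k → Min E (M.LL q [Z] r) p p' w →
      ∀ u v d, w = u ++ v → M.run (q, [Z]) u = some d → d.2.length ≤ 1 + b * M.rk E k := by
    intro Z q r p p' w hk hm u v d e hd
    cases u with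
    | nil =>
      obtain rfl := Option.some.inj hd
      simp
    | cons a u =>
      subst e
      obtain ⟨q₁, β, h1, h2⟩ := M.LL_letter hm.1
      obtain ⟨p₁, h3, h4⟩ := path_cons_iff.1 hm.2.1
      have h5 : M.run (q₁, β) u = some d := by simpa [run, step, h1] using hd
      have h6 := ihk _ hk β q₁ r p₁ p' (u ++ v) (by simp) ⟨(h2 _).2 hm.1, h4, fun w' h h' => by
        simpa using hm.2.2 (a :: w') ((h2 _).1 h) (Path.cons h3 h')⟩ u v d rfl h5
      have h7 := (M.rk_lt E hm).trans_le (M.rk_mono E hk)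
      have h8 := hb _ _ _ _ _ h1
      have h9 := Nat.mul_le_mul_left b (Nat.succ_le_of_lt h7)
      rw [Nat.mul_succ] at h9
      omega
  intro γ
  induction γ with
  | nil =>
    intro q r p p' w _ hm u v d e hd
    have := M.LL_nil hm.1
    subst this
    obtain ⟨rfl, rfl⟩ := List.append_eq_nil_iff.1 e.symm
    obtain rfl := Option.some.inj hd
    simp
  | cons Z γ ih =>
    intro q r p p' w hk hm u v d e hd
    have fr : ∀ u' v' r', u ++ v' ∈ M.LL q [Z] r' → (u ++ v').length < k →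
        Min E (M.LL q [Z] r') p u' (u ++ v') → d.2.length ≤ (Z :: γ).length + b * M.rk E k := by
      intro u' v' r' h1 h2 h3
      obtain ⟨d₁, h4⟩ := M.LL_run h1
      obtain ⟨⟨q₂, γ₂⟩, h5, -⟩ := M.run_pre h4
      have h6 := one Z q r' p u' _ h2 h3 u v' _ rfl h5
      have h7 := M.run_frame γ h5
      obtain rfl := Option.some.inj (hd.symm.trans h7)
      simp only [List.length_append, List.length_cons] at h6 ⊢
      omega
    rcases M.LL_cons hm.1 with ⟨h1, h2⟩ | ⟨u₁, v₁, q₁, e₁, h1, h2⟩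
    · subst e
      exact fr p' v none h1 hk ⟨h1, hm.2.1, fun w' h h' => hm.2.2 w' (h2 _ h) h'⟩
    · subst e₁
      obtain ⟨p₁, h3, h4⟩ := path_append_iff.1 hm.2.1
      rcases List.append_eq_append_iff.1 e with ⟨z, rfl, rfl⟩ | ⟨z, rfl, rfl⟩
      · have h5 := M.run_append_of (M.run_frame γ h1) z
        have h6 := ih q₁ r p₁ p' (z ++ v) (by simp at hk ⊢; omega) ⟨h2, h4, fun w' h h' => by
          simpa using hm.2.2 _ (M.LL_append h1 h) (path_append h3 h')⟩ z v d rfl (h5.symm.trans hd)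
        simp only [List.length_cons]
        omega
      · exact fr p₁ z (some q₁) h1 (by simp at hk ⊢; omega) ⟨h1, h3, fun w' h h' => by
          have := hm.2.2 _ (M.LL_append h h2) (path_append h' h4)
          simp only [List.length_append] at this ⊢
          omega⟩

/-- The pushdown stays low along a shortest accepted word. -/
theorem height {b : ℕ} (hb : ∀ q a Z q' β, M.δ q a Z = some (q', β) → β.length ≤ b) {p p' w}
    (h : Min E M.lang p p' w) {u v d} (e : w = u ++ v) (hd : M.run (M.q₀, [M.Z₀]) u = some d) :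
    d.2.length ≤ 1 + b * Nat.card (S × S × M.Q × M.Γ × Option M.Q) :=
  (M.height_aux E hb (w.length + 1) [M.Z₀] M.q₀ none p p' w (by omega) h u v d e hd).trans
    (Nat.add_le_add_left (Nat.mul_le_mul_left b (M.rk_le E _)) _)

end DPDA

/-- Pigeonhole along a shortest word. -/
theorem Min_pigeon {X S κ : Type} [Fintype S] {E : S → X → S → Prop} {K : Set (List X)} {p p' : S}
    {a v z : List X} (h : DPDA.Min E K p p' (a ++ v ++ z)) (U : Finset κ)
    (P : ℕ → κ → Prop) (hP : ∀ i ≤ v.length, ∃ k ∈ U, P i k)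
    (hc : ∀ i j k, i < j → j ≤ v.length → P i k → P j k → a ++ v.take i ++ (v.drop j ++ z) ∈ K) :
    v.length < Fintype.card S * U.card := by
  classical
  by_contra hcon
  have hs : ∀ i : ℕ, ∃ r, Path E p (a ++ v.take i) r ∧ Path E r (v.drop i ++ z) p' := fun i =>
    path_append_iff.1 (by
      have := h.2.1
      rwa [← List.take_append_drop i v, ← List.append_assoc, List.append_assoc _ _ z] at this)
  choose st h1 h2 using hs
  have : Nonempty κ := let ⟨k, _⟩ := hP 0 (Nat.zero_le _); ⟨k⟩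
  choose! ky h3 h4 using hP
  have key : ∀ i j, i < j → j ≤ v.length → (st i, ky i) ≠ (st j, ky j) := by
    intro i j hij hj e
    obtain ⟨e1, e2⟩ := Prod.mk.inj e
    have := h.2.2 _ (hc i j (ky j) hij hj (e2 ▸ h4 i (by omega)) (h4 j hj))
      (path_append (h1 i) (e1 ▸ h2 j))
    simp only [List.length_append, List.length_take, List.length_drop] at this
    omega
  obtain ⟨i, hi, j, hj, hne, e⟩ := Finset.exists_ne_map_eq_of_card_lt_of_maps_to
    (s := Finset.range (v.length + 1)) (t := (Finset.univ : Finset S) ×ˢ U)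
    (by simpa using Nat.lt_succ_of_le (not_lt.1 hcon)) (f := fun i => (st i, ky i)) (fun i hi => by
      simpa using h3 i (by simpa using Nat.lt_succ_iff.1 (by simpa using hi)))
  rw [Finset.mem_range] at hi hj
  rcases lt_or_gt_of_ne hne with hlt | hlt
  · exact key i j hlt (by omega) e
  · exact key j i hlt (by omega) e.symm

end Pool.Agent.Lib.MP_275d83_lc
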