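import Pool.Agent.Lib.MP_275d83_lc.Det.Upper

/-! The lower bound for the rational index. -/

namespace Pool.Agent.Lib.MP_275d83_lc.Det

open List Pool.Agent.Lib.MP_a569f2_lc

inductive Md | pre | dn | up | fin
  deriving DecidableEq, Fintype

section
variable (k t : ℕ)

/-- the labels of level `j` are `A j + 1, ..., A j + t` -/
def A (j : ℕ) : ℕ := t * 4 ^ j

/-- the edges of the finite automaton -/
inductive Ed : Md × ℕ × ℕ → Al → Md × ℕ × ℕ → Prop
  | pre {j m} : j ≤ k → m ≤ A t j + t → Ed (.pre, j, m) .o (.dn, j, m)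
  | x {j m} : j ≤ k → m < A t j + t → Ed (.dn, j, m + 1) .x (.dn, j, m)
  | o {j} : j < k → Ed (.dn, j + 1, 0) .o (.dn, j, A t j + 1)
  | leaf : Ed (.dn, 0, 0) .y (.up, 0, 1)
  | y {j m} : j ≤ k → m < A t j + t → Ed (.up, j, m) .y (.up, j, m + 1)
  | c {j m} : j ≤ k → A t j < m → m < A t j + t → Ed (.up, j, m) .c (.pre, j, m + 1)
  | last {j} : j ≤ k → Ed (.up, j, A t j + t) .c (.up, j + 1, 0)
  | e : Ed (.up, k + 1, 0) .e (.fin, 0, 0)

/-- admissible labels for the levels `j, ..., k` -/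
def Lab : ℕ → List ℕ → Prop
  | j, [] => j = k + 1
  | j, l :: r => j ≤ k ∧ A t j < l ∧ l ≤ A t j + t ∧ Lab (j + 1) r

/-- upper bounds only -/
def LabU : ℕ → List ℕ → Prop
  | j, [] => j = k + 1
  | j, l :: r => j ≤ k ∧ l ≤ A t j + t ∧ LabU (j + 1) r

/-- the number of leaves already visited -/
def prog : ℕ → List ℕ → ℕ
  | _, [] => 0
  | j, l :: r => (l - A t j - 1) * t ^ j + prog (j + 1) r

/-- the pushdown -/
def sk (r : List ℕ) : List Sy := (stk r 0).map sy ++ [.B]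

def On : Md × ℕ × ℕ → List Sy → ℕ → Prop
  | (.pre, j, m), γ, n => ∃ r, Lab k t j (m :: r) ∧ γ = sk r ∧ prog t j (m :: r) ≤ n
  | (.dn, j, m), γ, n => ∃ d r, Lab k t j ((d + m) :: r) ∧ γ = sk (d :: r) ∧
      prog t j ((d + m) :: r) ≤ n
  | (.up, j, m), γ, n => (∃ d r, Lab k t j ((d + m) :: r) ∧ γ = sk (d :: r) ∧
      prog t j ((d + m) :: r) + t ^ j ≤ n) ∨ (j = k + 1 ∧ γ = [.B] ∧ t ^ (k + 1) ≤ n)
  | (.fin, _, _), _, _ => False

def Cond (q : St) (d m a : ℕ) : Prop :=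
  (q = .p0 ∧ 2 * d + m ≤ a) ∨ (q = .p1 ∧ 1 ≤ d ∧ 2 * d + m ≤ a + 1) ∨ (q = .pS ∧ d = 0)

def Off : Md × ℕ × ℕ → St → List Sy → Prop
  | (.pre, j, _), q, γ => ∃ i d r, LabU k t (j + 1 + i) r ∧ γ = replicate i .N ++ sk (d :: r) ∧
      Cond q d 0 (A t (j + 1 + i))
  | (.dn, j, _), q, γ => ∃ i d r, LabU k t (j + 1 + i) r ∧
      γ = replicate (i + 1) .N ++ sk (d :: r) ∧ Cond q d 0 (A t (j + 1 + i))
  | (.up, j, m), q, γ => (∃ i d r, LabU k t (j + 1 + i) r ∧
      γ = replicate (i + 1) .N ++ sk (d :: r) ∧ Cond q d 0 (A t (j + 1 + i))) ∨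
      ∃ d r, LabU k t j r ∧ γ = sk (d :: r) ∧ Cond q d m (A t j)
  | (.fin, _, _), _, _ => False

def Inv (p : Md × ℕ × ℕ) (q : St) (γ : List Sy) (n : ℕ) : Prop :=
  (q = .on ∧ On k t p γ n) ∨ Off k t p q γ ∨ t ^ (k + 1) ≤ n

variable {k t}

theorem sk_zero (r : List ℕ) : sk (0 :: r) = .O :: sk r := rfl

theorem sk_succ (d : ℕ) (r : List ℕ) : sk ((d + 1) :: r) = .X :: sk (d :: r) := rfl

theorem sk_ne (r : List ℕ) : ∃ Z γ, sk r = Z :: γ := List.exists_cons_of_ne_nil (by simp [sk])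

theorem Lab.labU {r : List ℕ} : ∀ {j}, Lab k t j r → LabU k t j r := by
  induction r with
  | nil => exact fun h => h
  | cons l r ih => exact fun h => ⟨h.1, h.2.2.1, ih h.2.2.2⟩

theorem A_succ (j : ℕ) : 2 * (A t j + t) ≤ A t (j + 1) := by
  have : t * 1 ≤ t * 4 ^ j := Nat.mul_le_mul_left _ (Nat.one_le_pow _ _ (by norm_num))
  simp only [A, pow_succ, ← mul_assoc]
  omega

theorem st {q q' : St} {a : Al} {Z : Sy} {β γ : List Sy} {d : St × List Sy}
    (h : dl q a Z = some (q', β)) (h' : DM.step (q, Z :: γ) a = some d) : d = (q', β ++ γ) := by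
  simp only [DPDA.step, h, Option.map_some] at h'
  exact (Option.some.inj h').symm

theorem Cond.dl {q d m a} (h : Cond q d m a) : (∀ Z, dl q .o Z = some (q, [.N, Z])) ∧
    dl q .x .N = some (q, [.N]) ∧ dl q .y .N = some (q, [.N]) ∧ dl q .c .N = some (q, []) ∧
      ∀ Z, dl q .e Z = none := by
  rcases h with ⟨rfl, -⟩ | ⟨rfl, -⟩ | ⟨rfl, -⟩ <;>
    exact ⟨fun _ => rfl, rfl, rfl, rfl, fun Z => by cases Z <;> rfl⟩

theorem on_step (ht : 1 ≤ t) {p p' a γ n d} (h : On k t p γ n) (hE : Ed k t p a p')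
    (hs : DM.step (.on, γ) a = some d) : Inv k t p' d.1 d.2 (n + 1) := by
  cases hE with
  | @pre j m _ _ =>
    obtain ⟨r, h1, rfl, h2⟩ := h
    obtain ⟨Z, γ, e⟩ := sk_ne r
    rw [e] at hs
    obtain rfl := st (on_op false Z) hs
    exact Or.inl ⟨rfl, 0, r, by simpa using h1, by rw [sk_zero, e]; rfl, by simpa using h2.trans (Nat.le_succ _)⟩
  | @x j m _ _ =>
    obtain ⟨d', r, h1, rfl, h2⟩ := h
    obtain ⟨Z, γ, e⟩ := sk_ne (d' :: r)
    rw [e] at hs
    obtain rfl := st (on_op true Z) hs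
    have e' : d' + 1 + m = d' + (m + 1) := by omega
    exact Or.inl ⟨rfl, d' + 1, r, e' ▸ h1, by rw [sk_succ, e]; rfl, e' ▸ h2.trans (Nat.le_succ _)⟩
  | @o j hj =>
    obtain ⟨d', r, h1, rfl, h2⟩ := h
    obtain ⟨Z, γ, e⟩ := sk_ne (d' :: r)
    rw [e] at hs
    obtain rfl := st (on_op false Z) hs
    refine Or.inl ⟨rfl, 0, d' :: r, ⟨hj.le, by omega, by omega, h1⟩, by rw [sk_zero, e]; rfl, ?_⟩
    have : prog t j ((0 + (A t j + 1)) :: d' :: r) = prog t (j + 1) (d' :: r) := by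
      rw [prog]; simp
    exact this ▸ h2.trans (Nat.le_succ _)
  | leaf =>
    obtain ⟨d', r, h1, rfl, h2⟩ := h
    obtain ⟨d', rfl⟩ : ∃ e, d' = e + 1 := ⟨d' - 1, by have := h1.2.1; omega⟩
    obtain rfl := st (on_cl true) hs
    exact Or.inl ⟨rfl, Or.inl ⟨d', r, h1, rfl, by simpa using h2⟩⟩
  | @y j m hj hm =>
    rcases h with ⟨d', r, h1, rfl, h2⟩ | ⟨h1, -⟩
    · cases d' with
      | zero =>
        obtain rfl := st (q := .on) (Z := .O) (β := [.O, .O]) rfl hs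
        exact Or.inr (Or.inl (Or.inr ⟨0, 0 :: r, ⟨hj, Nat.zero_le _, h1.2.2.2.labU⟩, rfl,
          Or.inr (Or.inr ⟨rfl, rfl⟩)⟩))
      | succ d' =>
        obtain rfl := st (on_cl true) hs
        have e' : d' + (m + 1) = d' + 1 + m := by omega
        exact Or.inl ⟨rfl, Or.inl ⟨d', r, e' ▸ h1, rfl, e' ▸ h2.trans (Nat.le_succ _)⟩⟩
    · omega
  | @c j m hj hm hm' =>
    rcases h with ⟨d', r, h1, rfl, h2⟩ | ⟨h1, -⟩
    · cases d' with
      | zero =>
        obtain rfl := st (on_cl false) hs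
        refine Or.inl ⟨rfl, r, ⟨hj, by omega, by omega, h1.2.2.2⟩, rfl, ?_⟩
        simp only [prog] at h2 ⊢
        rw [show m + 1 - A t j - 1 = 0 + m - A t j - 1 + 1 by omega, Nat.succ_mul]
        omega
      | succ d' =>
        obtain rfl := st (q := .on) (Z := .X) (β := [.X]) rfl hs
        exact Or.inr (Or.inl ⟨0, d' + 1, r, h1.2.2.2.labU, rfl, Or.inl ⟨rfl, by
          have := h1.2.2.1
          have := A_succ (t := t) j
          simp only [Nat.add_zero]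
          omega⟩⟩)
    · omega
  | @last j hj =>
    rcases h with ⟨d', r, h1, rfl, h2⟩ | ⟨h1, -⟩
    · obtain rfl : d' = 0 := by have := h1.2.2.1; omega
      obtain rfl := st (on_cl false) hs
      have h3 : prog t (j + 1) r + t ^ (j + 1) ≤ n + 1 := by
        simp only [prog] at h2
        obtain ⟨s, rfl⟩ : ∃ s, t = s + 1 := ⟨t - 1, by omega⟩
        rw [show 0 + (A (s + 1) j + (s + 1)) - A (s + 1) j - 1 = s by omega] at h2
        rw [pow_succ', Nat.succ_mul]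
        omega
      refine Or.inl ⟨rfl, ?_⟩
      cases r with
      | nil =>
        have h4 : j + 1 = k + 1 := h1.2.2.2
        exact Or.inr ⟨h4, rfl, h4 ▸ (Nat.le_add_left _ _).trans h3⟩
      | cons l r => exact Or.inl ⟨l, r, h1.2.2.2, rfl, h3⟩
    · omega
  | e =>
    rcases h with ⟨d', r, h1, -⟩ | ⟨-, -, h2⟩
    · have := h1.1
      omega
    · exact Or.inr (Or.inr (h2.trans (Nat.le_succ _)))

theorem off_c {q d' m j r d} (hj : j ≤ k) (hm : A t j < m) (h1 : LabU k t j r)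
    (h2 : Cond q d' m (A t j)) (hs : DM.step (q, sk (d' :: r)) .c = some d) :
    ∃ l r', LabU k t (j + 1) r' ∧ d.2 = sk (l :: r') ∧ Cond d.1 l 0 (A t (j + 1)) := by
  rcases h2 with ⟨-, h⟩ | ⟨-, h, h'⟩ | ⟨rfl, rfl⟩
  · omega
  · omega
  · obtain rfl := st (q := .pS) (Z := .O) (β := []) rfl hs
    cases r with
    | nil =>
      have : j = k + 1 := h1
      omega
    | cons l r =>
      refine ⟨l, r, h1.2.2, rfl, Or.inl ⟨rfl, ?_⟩⟩
      have := h1.2.1
      have := A_succ (t := t) j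
      omega

theorem off_step (ht : 1 ≤ t) {p p' a q γ d} (h : Off k t p q γ) (hE : Ed k t p a p')
    (hs : DM.step (q, γ) a = some d) : Off k t p' d.1 d.2 := by
  cases hE with
  | @pre j m _ _ =>
    obtain ⟨i, d', r, h1, rfl, h2⟩ := h
    obtain ⟨Z, γ, e⟩ := List.exists_cons_of_ne_nil
      (l := replicate i Sy.N ++ sk (d' :: r)) (by simp [sk])
    rw [e] at hs
    obtain rfl := st (h2.dl.1 Z) hs
    exact ⟨i, d', r, h1, congrArg (Sy.N :: ·) e.symm, h2⟩
  | @x j m _ _ =>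
    obtain ⟨i, d', r, h1, rfl, h2⟩ := h
    obtain rfl := st h2.dl.2.1 hs
    exact ⟨i, d', r, h1, rfl, h2⟩
  | @o j hj =>
    obtain ⟨i, d', r, h1, rfl, h2⟩ := h
    obtain rfl := st (h2.dl.1 .N) hs
    have e : j + 1 + (i + 1) = j + 1 + 1 + i := by omega
    exact ⟨i + 1, d', r, e ▸ h1, rfl, e ▸ h2⟩
  | leaf =>
    obtain ⟨i, d', r, h1, rfl, h2⟩ := h
    obtain rfl := st h2.dl.2.2.1 hs
    exact Or.inl ⟨i, d', r, h1, rfl, h2⟩
  | @y j m hj hm =>
    rcases h with ⟨i, d', r, h1, rfl, h2⟩ | ⟨d', r, h1, rfl, h2⟩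
    · obtain rfl := st h2.dl.2.2.1 hs
      exact Or.inl ⟨i, d', r, h1, rfl, h2⟩
    · cases d' with
      | zero =>
        have : dl q .y .O = some (.pS, [.O]) := by
          rcases h2 with ⟨rfl, -⟩ | ⟨rfl, -⟩ | ⟨rfl, -⟩ <;> rfl
        obtain rfl := st this hs
        exact Or.inr ⟨0, r, h1, rfl, Or.inr (Or.inr ⟨rfl, rfl⟩)⟩
      | succ d' =>
        rcases h2 with ⟨rfl, h⟩ | ⟨rfl, -, h⟩ | ⟨-, h⟩
        · obtain rfl := st (q := .p0) (Z := .X) (β := [.X]) rfl hs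
          exact Or.inr ⟨d' + 1, r, h1, rfl, Or.inr (Or.inl ⟨rfl, by omega, by omega⟩)⟩
        · obtain rfl := st (q := .p1) (Z := .X) (β := []) rfl hs
          exact Or.inr ⟨d', r, h1, rfl, Or.inl ⟨rfl, by omega⟩⟩
        · omega
  | @c j m hj hm hm' =>
    rcases h with ⟨i, d', r, h1, rfl, h2⟩ | ⟨d', r, h1, rfl, h2⟩
    · obtain rfl := st h2.dl.2.2.2.1 hs
      exact ⟨i, d', r, h1, rfl, h2⟩
    · obtain ⟨l, r', h3, h4, h5⟩ := off_c hj hm h1 h2 hs
      exact ⟨0, l, r', h3, h4, h5⟩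
  | @last j hj =>
    rcases h with ⟨i, d', r, h1, rfl, h2⟩ | ⟨d', r, h1, rfl, h2⟩
    · obtain rfl := st h2.dl.2.2.2.1 hs
      cases i with
      | zero => exact Or.inr ⟨d', r, h1, rfl, h2⟩
      | succ i =>
        have e : j + 1 + 1 + i = j + 1 + (i + 1) := by omega
        exact Or.inl ⟨i, d', r, e ▸ h1, rfl, e ▸ h2⟩
    · obtain ⟨l, r', h3, h4, h5⟩ := off_c hj (by omega) h1 h2 hs
      exact Or.inr ⟨l, r', h3, h4, h5⟩
  | e =>
    rcases h with ⟨i, d', r, h1, rfl, h2⟩ | ⟨d', r, h1, rfl, h2⟩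
    · simp [replicate_succ, DPDA.step, h2.dl.2.2.2.2] at hs
    · obtain ⟨Z, γ, e⟩ := sk_ne (d' :: r)
      simp [e, DPDA.step, h2.dl.2.2.2.2] at hs

theorem inv_run (ht : 1 ≤ t) {p p' w} (hp : Path (Ed k t) p w p') : ∀ {q γ n d},
    Inv k t p q γ n → rn q γ w = some d → Inv k t p' d.1 d.2 (n + w.length) := by
  induction hp with
  | nil s =>
    intro q γ n d h hd
    obtain rfl := Option.some.inj hd
    exact h
  | @cons s s' u a w hE _ ih =>
    intro q γ n d h hd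
    obtain ⟨d₁, h1, h2⟩ := Option.bind_eq_some_iff.1 hd
    have : Inv k t s' d₁.1 d₁.2 (n + 1) := by
      rcases h with ⟨rfl, h⟩ | h | h
      · exact on_step ht h hE h1
      · exact Or.inr (Or.inl (off_step ht h hE h1))
      · exact Or.inr (Or.inr (h.trans (Nat.le_succ _)))
    have := ih this h2
    rwa [Nat.add_assoc, Nat.add_comm 1] at this

theorem path_x {j : ℕ} (hj : j ≤ k) : ∀ m, m ≤ A t j + t →
    Path (Ed k t) (.dn, j, m) (replicate m .x) (.dn, j, 0)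
  | 0, _ => Path.nil _
  | m + 1, h => Path.cons (Ed.x hj h) (path_x hj m (by omega))

theorem path_y {j : ℕ} (hj : j ≤ k) : ∀ i m, m + i ≤ A t j + t →
    Path (Ed k t) (.up, j, m) (replicate i .y) (.up, j, m + i)
  | 0, _, _ => Path.nil _
  | i + 1, m, h => Path.cons (Ed.y hj (by omega)) (by
      simpa [Nat.add_assoc, Nat.add_comm 1] using path_y hj i (m + 1) (by omega))

theorem bal_wrap {v : List Al} (hv : Bal v) : ∀ m, Bal (replicate m .x ++ v ++ replicate m .y)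
  | 0 => by simpa using hv
  | m + 1 => by
      have := Bal.cons true (bal_wrap hv m) Bal.nil
      rw [replicate_succ, replicate_succ' (a := Al.y)]
      simpa [op, cl] using this

theorem exists_level {j : ℕ} (hj : j ≤ k) {v : List Al} (hv : Bal v)
    (hp : Path (Ed k t) (.dn, j, 0) (v ++ [.y]) (.up, j, 1)) : ∀ i m, A t j < m →
      m + i = A t j + t → ∃ u, Bal (.o :: u) ∧ Path (Ed k t) (.dn, j, m) u (.up, j + 1, 0) := by
  have one : ∀ m, A t j < m → m ≤ A t j + t →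
      Path (Ed k t) (.dn, j, m) (replicate m .x ++ v ++ replicate m .y) (.up, j, m) := by
    intro m h1 h2
    obtain ⟨m, rfl⟩ : ∃ e, m = e + 1 := ⟨m - 1, by omega⟩
    have := path_append (path_x hj _ h2) (path_append hp (path_y hj m 1 (by omega)))
    rw [Nat.add_comm 1 m] at this
    simpa [replicate_succ] using this
  intro i
  induction i with
  | zero =>
    intro m h1 h2
    obtain rfl : m = A t j + t := h2
    exact ⟨_, Bal.cons false (bal_wrap hv _) Bal.nil,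
      path_append (one _ h1 le_rfl) (Path.cons (Ed.last hj) (Path.nil _))⟩
  | succ i ih =>
    intro m h1 h2
    obtain ⟨u, h3, h4⟩ := ih (m + 1) (by omega) (by omega)
    exact ⟨_, Bal.cons false (bal_wrap hv m) h3, path_append (one _ h1 (by omega))
      (Path.cons (Ed.c hj h1 (by omega)) (Path.cons (Ed.pre hj (by omega)) h4))⟩

theorem exists_tree (ht : 1 ≤ t) : ∀ j, j ≤ k →
    ∃ u, Bal (.o :: u) ∧ Path (Ed k t) (.dn, j, A t j + 1) u (.up, j + 1, 0) := by
  intro j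
  induction j with
  | zero =>
    intro hj
    exact exists_level hj Bal.nil (Path.cons Ed.leaf (Path.nil _)) (t - 1) _ (by omega) (by omega)
  | succ j ih =>
    intro hj
    obtain ⟨u, h1, h2⟩ := ih (by omega)
    exact exists_level hj h1 (Path.cons (Ed.o hj) (path_append h2
      (Path.cons (Ed.y hj (by omega)) (Path.nil _)))) (t - 1) _ (by omega) (by omega)

end

theorem le_index_fin {X Q : Type} [Finite X] {L : Language X} (E : Q → X → Q → Prop)
    (U : Finset Q) (hU : ∀ p a q, E p a q → q ∈ U) {s t : Q} (hs : s ∈ U) {n m : ℕ}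
    (hn : U.card ≤ n) (hex : ∃ w ∈ L, Path E s w t)
    (hm : ∀ w ∈ L, Path E s w t → m ≤ w.length) : m ≤ index L n := by
  obtain ⟨w, hw, hp⟩ := hex
  obtain ⟨t', rfl, h⟩ := path_of_state (E := fun (p : U) a (q : U) => E p.1 a q.1) (E' := E)
    Subtype.val (fun p a q h => ⟨⟨q, hU _ _ _ h⟩, rfl, h⟩) (s := ⟨s, hs⟩) hp
  exact le_index _ ⟨s, hs⟩ t' (by simpa using hn) ⟨w, hw, h⟩ fun v hv hp' =>
    hm v hv (path_map_state Subtype.val (fun _ _ _ h => h) hp')

theorem index_lower (k : ℕ) {n : ℕ} (hn : 2 ^ (4 * k + 5) ≤ n) :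
    2 ^ (k * (k + 1)) ≤ index DM.lang n := by
  obtain ⟨t, ht⟩ : ∃ t, t = 2 ^ k := ⟨_, rfl⟩
  have ht1 : 1 ≤ t := ht ▸ Nat.one_le_two_pow
  have hA : ∀ j, j ≤ k → A t j ≤ A t k := fun j hj =>
    Nat.mul_le_mul_left _ (Nat.pow_le_pow_right (by norm_num) hj)
  rw [pow_mul, ← ht]
  refine le_index_fin (Ed k t)
    (Finset.univ ×ˢ Finset.range (k + 2) ×ˢ Finset.range (A t k + t + 1)) ?_
    (s := (.pre, k, A t k + 1)) (t := (.fin, 0, 0)) (by simp; omega) (le_trans ?_ hn) ?_ ?_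
  · intro p a q h
    simp only [Finset.mem_product, Finset.mem_univ, Finset.mem_range, true_and]
    cases h with
    | @pre j m h1 h2 => have := hA j h1; dsimp only; omega
    | @x j m h1 h2 => have := hA j h1; dsimp only; omega
    | @o j h1 => have := hA j h1.le; dsimp only; omega
    | leaf => dsimp only; omega
    | @y j m h1 h2 => have := hA j h1; dsimp only; omega
    | @c j m h1 h2 h3 => have := hA j h1; dsimp only; omega
    | @last j h1 => dsimp only; omega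
    | e => dsimp only; omega
  · have e : Fintype.card Md = 4 := rfl
    simp only [Finset.card_product, Finset.card_univ, Finset.card_range, e]
    have h1 : k + 2 ≤ 2 * t := by
      have := Nat.lt_two_pow_self (n := k)
      omega
    have h2 : A t k = t ^ 3 := by
      rw [A, show 4 ^ k = t ^ 2 by rw [ht, ← pow_mul, mul_comm, pow_mul]; norm_num]; ring
    have h3 : t ≤ t ^ 3 := Nat.le_self_pow (by norm_num) _
    calc _ ≤ 4 * (2 * t * (4 * t ^ 3)) := by gcongr; omega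
      _ = _ := by rw [pow_add, mul_comm 4 k, pow_mul, ← ht]; ring
  · obtain ⟨u, h1, h2⟩ := exists_tree (k := k) ht1 k le_rfl
    refine ⟨.o :: u ++ [.e], mem_lang.2 ⟨_, (DM.run_append_of (h1.skip _ _ _) _).trans rfl⟩, ?_⟩
    exact Path.cons (Ed.pre le_rfl (by omega)) (path_append h2 (Path.cons Ed.e (Path.nil _)))
  · intro w hw hp
    obtain ⟨γ, h⟩ := mem_lang.1 hw
    have := inv_run ht1 hp (n := 0) (Or.inl ⟨rfl, [], ⟨le_rfl, by omega, by omega, rfl⟩, rfl, by
      simp [prog]⟩) h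
    rcases this with ⟨-, h⟩ | h | h
    · exact h.elim
    · exact h.elim
    · simpa using h

end Pool.Agent.Lib.MP_275d83_lc.Det
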