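import Pool.Agent.Lib.MP_275d83_lc.Det.DM

/-! The upper bound for the rational index. -/

namespace Pool.Agent.Lib.MP_275d83_lc.Det

open List Pool.Agent.Lib.MP_a569f2_lc

theorem mem_lang {w : List Al} : w ∈ DM.lang ↔ Acc .on [.B] w := by
  constructor
  · rintro ⟨_, rfl, γ, h⟩; exact ⟨γ, h⟩
  · rintro ⟨γ, h⟩; exact ⟨_, rfl, γ, h⟩

theorem same_bottom {r s : List ℕ} {c : ℕ} (hl : r.length = s.length)
    (h : ∀ j : Fin c, r.reverse.getD j 0 = s.reverse.getD j 0) :
    r = s ∨ ∃ r₁ s₁ τ, r = r₁ ++ τ ∧ s = s₁ ++ τ ∧ τ.length = c := by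
  have h1 : r.reverse.take c = s.reverse.take c := by
    refine List.ext_getElem (by simp [hl]) fun j h1 h2 => ?_
    simp only [length_take, length_reverse, lt_min_iff] at h1 h2
    have := h ⟨j, h1.1⟩
    rw [List.getD_eq_getElem _ _ (by simpa using h1.2),
      List.getD_eq_getElem _ _ (by simpa using h2.2)] at this
    simpa using this
  rcases le_total r.length c with hc | hc
  · rw [List.take_of_length_le (by simpa using hc),
      List.take_of_length_le (by simpa [← hl] using hc)] at h1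
    exact Or.inl (List.reverse_injective h1)
  · refine Or.inr ⟨(r.reverse.drop c).reverse, (s.reverse.drop c).reverse,
      (r.reverse.take c).reverse, ?_, ?_, by simpa using hc⟩
    · rw [← List.reverse_append, List.take_append_drop, List.reverse_reverse]
    · rw [h1, ← List.reverse_append, List.take_append_drop, List.reverse_reverse]

section
variable {S : Type} [Fintype S] {E : S → Al → S → Prop} {p p' : S} {w : List Al} {H : ℕ}

theorem bal_short (hm : DPDA.Min E DM.lang p p' w)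
    (hH : ∀ u v q γ, w = u ++ v → rn .on [.B] u = some (q, γ) → γ.length ≤ H)
    {c : ℕ} (hc : H + 1 < 2 ^ c) {a v z : List Al} {β : List Sy} (e : w = a ++ v ++ z)
    (ha : rn .on [.B] a = some (.on, β)) (hv : Bal v) :
    v.length < Fintype.card S * (H + 1) ^ (c + 3) := by
  subst e
  have hB : Sy.B ∈ β := run_B ha (by simp)
  obtain ⟨Z, β', rfl⟩ := List.exists_cons_of_ne_nil (List.ne_nil_of_mem hB)
  obtain ⟨γ₀, h₀⟩ := mem_lang.1 hm.1
  have hz : rn .on (Z :: β') z = some (.acc, γ₀) := by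
    rw [← h₀, append_assoc]
    exact ((DM.run_append_of ha _).trans (DM.run_append_of (hv.skip _ _ _) _)).symm
  have key := Min_pigeon hm (κ := ℕ × ℕ × (Fin (c + 1) → ℕ))
    (Finset.range (H + 1) ×ˢ Finset.range (H + 1) ×ˢ
      Fintype.piFinset fun _ => Finset.range (H + 1))
    (fun i k => ∃ r : List ℕ, r.length = k.1 ∧ (∀ j : Fin (c + 1), r.reverse.getD j 0 = k.2.2 j) ∧
      (∀ l ∈ r, l ≤ H) ∧
      rn .on (Z :: β') (v.take i) = some (.on, (stk r k.2.1).map sy ++ Z :: β') ∧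
      Dn (stk r k.2.1) (v.drop i)) ?_ ?_
  · refine key.trans_eq ?_
    simp only [Finset.card_product, Finset.card_range, Fintype.card_piFinset, Finset.prod_const,
      Finset.card_univ, Fintype.card_fin]
    ring
  · intro i _
    obtain ⟨σ, h1, h2⟩ := hv.split _ _ (List.take_append_drop i v).symm
    obtain ⟨r, b, rfl⟩ := exists_stk σ
    have h3 := hH (a ++ v.take i) (v.drop i ++ z) _ _
      (by rw [append_assoc, append_assoc, ← append_assoc (v.take i), List.take_append_drop])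
      ((DM.run_append_of ha _).trans (h1 Z β'))
    rw [length_append, length_map, stk_length] at h3
    have h4 : ∀ l ∈ r, l ≤ H := fun l hl => (List.le_sum_of_mem hl).trans (by omega)
    refine ⟨(r.length, b, fun j => r.reverse.getD j 0), ?_, r, rfl, fun _ => rfl, h4, h1 Z β', h2⟩
    simp only [Finset.mem_product, Finset.mem_range, Fintype.mem_piFinset]
    refine ⟨by omega, by omega, fun j => Nat.lt_succ_of_le ?_⟩
    rcases lt_or_ge (j : ℕ) r.reverse.length with h | h
    · rw [List.getD_eq_getElem _ _ h]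
      exact h4 _ (List.mem_reverse.1 (List.getElem_mem _))
    · rw [List.getD_eq_default _ _ h]
      exact Nat.zero_le _
  · rintro i j ⟨k₁, b, f⟩ - - ⟨r, h1, h2, h3, h4, -⟩ ⟨s, h5, h6, -, -, h7⟩
    simp only at h1 h2 h4 h5 h6 h7
    have h8 : Sy.B ∈ (stk r b).map sy ++ Z :: β' := mem_append_right _ hB
    have h9 := h7.run (q := .on) h8
    refine mem_lang.2 ?_
    rw [Acc, rn, DM.run_append_of ((DM.run_append_of ha _).trans h4)]
    have same : r = s → ∃ γ', DM.run (.on, (stk r b).map sy ++ Z :: β') (v.drop j ++ z) =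
        some (.acc, γ') := by
      rintro rfl
      have := on_pop (stk r b) (Z :: β') []
      rw [append_nil] at this
      exact ⟨γ₀, (DM.run_append_of (h9.trans this) _).trans hz⟩
    rcases same_bottom (h1.trans h5.symm) (fun j => (h2 j).trans (h6 j).symm) with
      h | ⟨r₁, s₁, τ, rfl, rfl, hτ⟩
    · exact same h
    · by_cases h : r₁ = s₁
      · exact same (by rw [h])
      · obtain ⟨k, hk, hk'⟩ := not_geom τ hc hτ fun l hl => h3 l (mem_append_right _ hl)
        obtain ⟨γ', h10⟩ := glue b (Z :: β') τ hk hk' r₁ s₁ (by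
          simp only [length_append] at h1 h5; omega) h
        obtain ⟨Y, γ'', rfl⟩ := List.exists_cons_of_ne_nil (List.ne_nil_of_mem (run_B h10 h8))
        exact ⟨_, (DM.run_append_of (h9.trans h10) _).trans (acc_run _ _ _)⟩

/-- words that leave the brackets of `σ` open -/
def Up : List Bool → List Al → Prop
  | [], u => Bal u
  | b :: σ, u => ∃ u' v, Up σ u' ∧ Bal v ∧ u = u' ++ op b :: v

theorem Up.append {σ : List Bool} {u v : List Al} (h : Up σ u) (hv : Bal v) : Up σ (u ++ v) := by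
  cases σ with
  | nil => exact Bal.append h hv
  | cons b σ =>
    obtain ⟨u', v', h1, h2, rfl⟩ := h
    exact ⟨u', v' ++ v, h1, h2.append hv, by simp⟩

theorem Up.run {σ : List Bool} : ∀ {u}, Up σ u →
    rn .on [.B] u = some (.on, σ.map sy ++ [.B]) := by
  induction σ with
  | nil => intro u h; exact Bal.skip h _ _ _
  | cons b σ ih =>
    rintro _ ⟨u', v, h1, h2, rfl⟩
    obtain ⟨Z, γ, e⟩ := List.exists_cons_of_ne_nil (l := σ.map sy ++ [Sy.B]) (by simp)
    refine (DM.run_append_of (ih h1) _).trans ?_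
    rw [map_cons, cons_append, e]
    exact (rc (on_op b Z) _ _).trans (h2.skip _ _ _)

theorem dl_on' {a Z β} (h : dl .on a Z = some (.on, β)) :
    ∃ b, (a = op b ∧ β = [sy b, Z]) ∨ (a = cl b ∧ Z = sy b ∧ β = []) := by
  cases a <;> cases Z <;> cases h <;>
    first
      | exact ⟨true, Or.inl ⟨rfl, rfl⟩⟩
      | exact ⟨false, Or.inl ⟨rfl, rfl⟩⟩
      | exact ⟨true, Or.inr ⟨rfl, rfl, rfl⟩⟩
      | exact ⟨false, Or.inr ⟨rfl, rfl, rfl⟩⟩

theorem exists_up (u : List Al) : ∀ γ, rn .on [.B] u = some (.on, γ) → ∃ σ, Up σ u := by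
  induction u using List.reverseRecOn with
  | nil => exact fun _ _ => ⟨[], Bal.nil⟩
  | append_singleton u a ih =>
    intro γ h
    obtain ⟨⟨q₁, γ₁⟩, h1, h2⟩ := DM.run_pre h
    obtain ⟨Z, γ₂, q₂, β, rfl, h3, h4⟩ := DM.run_cons_iff.1 h2
    obtain ⟨rfl, -⟩ := Prod.mk.inj (Option.some.inj h4)
    obtain rfl := dl_on h3
    obtain ⟨σ, h5⟩ := ih _ h1
    obtain ⟨b, ⟨rfl, -⟩ | ⟨rfl, rfl, -⟩⟩ := dl_on' h3
    · exact ⟨b :: σ, u, [], h5, Bal.nil, rfl⟩
    · have h6 := (Prod.mk.inj (Option.some.inj (h1.symm.trans h5.run))).2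
      cases σ with
      | nil => cases b <;> simp [sy] at h6
      | cons b' σ =>
        obtain rfl : b = b' := by
          have := (List.cons.inj h6).1
          cases b <;> cases b' <;> simp [sy] at this ⊢
        obtain ⟨u', v, h7, h8, rfl⟩ := h5
        exact ⟨σ, by simpa using h7.append (Bal.cons b h8 Bal.nil)⟩

theorem up_short {D : ℕ} (hD : ∀ a v z β, w = a ++ v ++ z → rn .on [.B] a = some (.on, β) →
    Bal v → v.length < D) {σ : List Bool} :
    ∀ {u z}, Up σ u → w = u ++ z → u.length < (σ.length + 1) * D := by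
  induction σ with
  | nil => intro u z h e; simpa using hD [] u z _ (by simpa using e) rfl h
  | cons b σ ih =>
    rintro _ z ⟨u', v, h1, h2, rfl⟩ e
    have h3 := ih h1 (z := op b :: v ++ z) (by simpa using e)
    have h4 : Up (b :: σ) (u' ++ [op b]) := ⟨u', [], h1, Bal.nil, rfl⟩
    have h5 := hD (u' ++ [op b]) v z _ (by simpa using e) h4.run h2
    simp only [length_append, length_cons]
    rw [Nat.succ_mul]
    omega

theorem split_on {w : List Al} : ∀ {γ γ'}, rn .on γ w = some (.acc, γ') →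
    ∃ u a z γ₁ q γ₂, w = u ++ [a] ++ z ∧ rn .on γ u = some (.on, γ₁) ∧
      rn .on γ (u ++ [a]) = some (q, γ₂) ∧ q ≠ .on := by
  induction w with
  | nil => intro γ γ' h; cases h
  | cons a w ih =>
    intro γ γ' h
    obtain ⟨Z, γ₁, q₁, β, rfl, h1, h2⟩ := DM.run_cons_iff.1 h
    by_cases hq : q₁ = .on
    · subst hq
      obtain ⟨u, a', z, γ₂, q, γ₃, rfl, h3, h4, h5⟩ := ih h2
      exact ⟨a :: u, a', z, γ₂, q, γ₃, rfl, (rc h1 _ _).trans h3, (rc h1 _ _).trans h4, h5⟩
    · exact ⟨[], a, w, _, q₁, _, rfl, rfl, rc h1 _ _, hq⟩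

/-- the shape of the pushdown after the first mismatch -/
def Form (γ₀ γ : List Sy) : Prop :=
  ∃ d d' s, s <:+ γ₀ ∧ γ = replicate d .N ++ (replicate d' .M ++ s)

theorem Form.tail {γ₀ γ : List Sy} {Z : Sy} (h : Form γ₀ (Z :: γ)) : Form γ₀ γ := by
  obtain ⟨d, d', s, h1, h2⟩ := h
  cases d with
  | succ d => exact ⟨d, d', s, h1, (List.cons.inj h2).2⟩
  | zero =>
    cases d' with
    | succ d' => exact ⟨0, d', s, h1, (List.cons.inj h2).2⟩
    | zero =>
      obtain rfl : Z :: γ = s := h2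
      exact ⟨0, 0, γ, (List.suffix_cons Z γ).trans h1, rfl⟩

theorem form_run {γ₀ : List Sy} {w : List Al} : ∀ {q γ q' γ'}, q ≠ .on → Form γ₀ γ →
    rn q γ w = some (q', γ') → Form γ₀ γ' := by
  induction w with
  | nil =>
    intro q γ q' γ' _ hf h
    obtain ⟨rfl, rfl⟩ := Prod.mk.inj (Option.some.inj h)
    exact hf
  | cons a w ih =>
    intro q γ q' γ' hq hf h
    obtain ⟨Z, γ₁, q₁, β, rfl, h1, h2⟩ := DM.run_cons_iff.1 h
    refine ih (fun e => hq (dl_on (e ▸ h1))) ?_ h2
    rcases dl_off hq h1 with rfl | rfl | rfl | ⟨rfl, hZ⟩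
    · obtain ⟨d, d', s, h3, h4⟩ := hf
      exact ⟨d + 1, d', s, h3, congrArg (Sy.N :: ·) h4⟩
    · exact hf
    · exact hf.tail
    · obtain ⟨d, d', s, h3, h4⟩ := hf
      cases d with
      | succ d => exact absurd (List.cons.inj h4).1 hZ
      | zero => exact ⟨0, d' + 1, s, h3, congrArg (Sy.M :: ·) h4⟩

theorem off_short (hm : DPDA.Min E DM.lang p p' w)
    (hH : ∀ u v q γ, w = u ++ v → rn .on [.B] u = some (q, γ) → γ.length ≤ H)
    {a z : List Al} {q : St} {γ₀ : List Sy} (e : w = a ++ z) (ha : rn .on [.B] a = some (q, γ₀))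
    (hq : q ≠ .on) : z.length < Fintype.card S * (5 * (H + 1) ^ 3) := by
  subst e
  obtain ⟨γ₁, h₀⟩ := mem_lang.1 hm.1
  have hz : rn q γ₀ z = some (.acc, γ₁) := (DM.run_append_of ha _).symm.trans h₀
  have key := Min_pigeon (a := a) (v := z) (z := []) (by simpa using hm) (κ := St × ℕ × ℕ × ℕ)
    (Finset.univ ×ˢ Finset.range (H + 1) ×ˢ Finset.range (H + 1) ×ˢ Finset.range (H + 1))
    (fun i k => ∃ s, s <:+ γ₀ ∧ s.length = k.2.2.2 ∧ rn q γ₀ (z.take i) =
      some (k.1, replicate k.2.1 .N ++ (replicate k.2.2.1 .M ++ s))) ?_ ?_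
  · refine key.trans_eq ?_
    have : Fintype.card St = 5 := rfl
    simp only [Finset.card_product, Finset.card_range, Finset.card_univ, this]
    ring
  · intro i _
    rw [← List.take_append_drop i z] at hz
    obtain ⟨⟨q', γ'⟩, h1, -⟩ := DM.run_pre hz
    obtain ⟨d, d', s, h2, rfl⟩ := form_run hq ⟨0, 0, γ₀, List.suffix_refl _, rfl⟩ h1
    have h3 := hH (a ++ z.take i) (z.drop i) _ _ (by rw [append_assoc, List.take_append_drop])
      ((DM.run_append_of ha _).trans h1)
    simp only [length_append, length_replicate] at h3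
    refine ⟨(q', d, d', s.length), ?_, s, h2, rfl, h1⟩
    simp only [Finset.mem_product, Finset.mem_range, Finset.mem_univ, true_and]
    omega
  · rintro i j k - - ⟨s, h1, h2, h3⟩ ⟨s', h4, h5, h6⟩
    obtain rfl : s = s' := by
      rw [List.suffix_iff_eq_drop.1 h1, List.suffix_iff_eq_drop.1 h4, h2, h5]
    rw [← List.take_append_drop j z] at hz
    refine mem_lang.2 ⟨γ₁, ?_⟩
    rw [append_nil]
    exact (DM.run_append_of ((DM.run_append_of ha _).trans h3) _).trans
      ((DM.run_append_of h6 _).symm.trans hz)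

end

theorem index_upper (n : ℕ) {c : ℕ} (hc : 300 * n ^ 2 + 1 + 1 < 2 ^ c) :
    index DM.lang n ≤ 2 ^ (c * (c + 6)) := by
  refine index_le fun E s t w₀ hw hp => ?_
  have hne : {k | ∃ w ∈ DM.lang, Path E s w t ∧ w.length = k}.Nonempty := ⟨_, w₀, hw, hp, rfl⟩
  obtain ⟨w, h1, h2, h3⟩ := Nat.sInf_mem hne
  have hm : DPDA.Min E DM.lang s t w :=
    ⟨h1, h2, fun v hv hp' => h3 ▸ Nat.sInf_le ⟨v, hv, hp', rfl⟩⟩
  refine ⟨w, h1, h2, ?_⟩
  have hH : ∀ u v q γ, w = u ++ v → rn .on [.B] u = some (q, γ) →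
      γ.length ≤ 300 * n ^ 2 + 1 := by
    intro u v q γ e h
    refine (DM.height E dl_len hm e h).trans_eq ?_
    have e1 : Fintype.card St = 5 := rfl
    have e2 : Fintype.card Sy = 5 := rfl
    simp only [Nat.card_eq_fintype_card, Fintype.card_prod, Fintype.card_fin, Fintype.card_option,
      e1, e2]
    ring
  obtain ⟨γ', h4⟩ := mem_lang.1 h1
  obtain ⟨u, a, z, γ₁, q, γ₂, e, h5, h6, h7⟩ := split_on h4
  obtain ⟨σ, h8⟩ := exists_up u _ h5
  have h9 := up_short (fun a v z β e ha hv => bal_short hm hH hc e ha hv) h8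
    (z := [a] ++ z) (by rw [e, append_assoc])
  have h10 := off_short hm hH e h6 h7
  have h11 := hH u ([a] ++ z) _ _ (by rw [e, append_assoc]) h8.run
  simp only [length_append, length_map, length_singleton, Fintype.card_fin] at h9 h10 h11
  have hn : 5 * n ≤ 300 * n ^ 2 + 1 + 1 := by nlinarith
  generalize 300 * n ^ 2 + 1 = H at *
  have hK : H + 1 ≤ 2 ^ c := hc.le
  have h12 : (σ.length + 1) * (n * (H + 1) ^ (c + 3)) ≤ (2 ^ c) ^ (c + 5) := by
    calc _ ≤ 2 ^ c * (2 ^ c * (2 ^ c) ^ (c + 3)) := by gcongr <;> omega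
      _ = _ := by ring
  have h13 : n * (5 * (H + 1) ^ 3) ≤ (2 ^ c) ^ (c + 5) := by
    calc _ = (5 * n) * (H + 1) ^ 3 := by ring
      _ ≤ 2 ^ c * (2 ^ c) ^ 3 := by gcongr; omega
      _ = (2 ^ c) ^ 4 := by ring
      _ ≤ _ := Nat.pow_le_pow_right (by positivity) (by omega)
  have h14 : 2 * (2 ^ c) ^ (c + 5) ≤ 2 ^ (c * (c + 6)) := by
    rw [pow_mul, pow_succ' _ (c + 5)]
    gcongr
    omega
  rw [e]
  simp only [length_append, length_singleton]
  omega

end Pool.Agent.Lib.MP_275d83_lc.Det
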